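import Pool.Agent.Lib.RHO6.Seq

open Finset Filter Topology

namespace Pool.Agent.Results.MP_5a799b_co.LimitExists

open Pool.Agent.Results.MP_5a799b_co.LogBounds (HasTriple f F log32_pos)

/-- The limit `ρ` of `log n / F n` exists, and no group beats the cyclic groups; see the claim
file. -/
theorem result :
    ∃ rho : ℝ,
      Real.log (3 / 2) / 2 ≤ rho ∧ rho ≤ Real.log (3 / 2) ∧
      Tendsto (fun n : ℕ => Real.log n / (F n : ℝ)) atTop (𝓝 rho) ∧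
      Tendsto (fun n : ℕ => Real.log n / (f (ZMod n) : ℝ)) atTop (𝓝 rho) ∧
      IsLUB {x : ℝ | ∃ n : ℕ, 2 ≤ n ∧ x = ((f (ZMod n) : ℝ) - 1) / Real.log n} (1 / rho) ∧
      (∀ (G : Type) [AddCommGroup G] [Finite G],
        (f G : ℝ) - 1 ≤ Real.log (Nat.card G) / rho) ∧
      (∀ (G : Type) [AddCommGroup G] [Finite G] (k : ℕ) (s : Fin k → G),
        (∀ A B C : Finset (Fin k), Disjoint A B → Disjoint A C → Disjoint B C →
          ∑ i ∈ A, s i = ∑ i ∈ B, s i → ∑ i ∈ B, s i = ∑ i ∈ C, s i →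
          A = ∅ ∧ B = ∅ ∧ C = ∅) →
        (k : ℝ) ≤ Real.log (Nat.card G) / rho) ∧
      (∀ ε : ℝ, 0 < ε → ∃ δ : ℝ, 0 < δ ∧ ∃ N : ℕ,
        ∀ (r : ℕ) (m : Fin r → ℕ), (∀ i, 1 ≤ m i) → N ≤ ∏ i, m i →
          (r : ℝ) * Real.log (Real.log (∏ i, (m i : ℝ))) ≤ δ * Real.log (∏ i, (m i : ℝ)) →
          |(f (∀ i, ZMod (m i)) : ℝ) / Real.log (∏ i, (m i : ℝ)) - 1 / rho| ≤ ε) ∧
      (∀ (G : Type) [AddCommGroup G] [Finite G] (H : AddSubgroup G),
        f H + f (G ⧸ H) ≤ f G + 1) ∧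
      (∀ (r : ℕ) (m : Fin r → ℕ) (S : Finset (∀ i, ZMod (m i))),
        (∀ i, 1 ≤ m i) → S.Nonempty → ¬ HasTriple S →
        ∀ n : ℕ, S.card ^ r * ∏ i, m i ≤ n → S.card + 1 ≤ f (ZMod n)) := by
  have hl := Lib.RHO6.lam_pos
  have h32 := log32_pos
  refine ⟨1 / sSup Lib.RHO6.Xs, ?_, ?_, Lib.RHO6.tendsto_of_eq Lib.RHO6.Lam_eq, ?_, ?_, ?_, ?_,
    ?_, fun G _ _ H => Lib.RHO6.f_extension H, ?_⟩
  · have h := Lib.RHO6.lam_le_Lam.trans Lib.RHO6.Lam_le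
    rw [le_div_iff₀ hl]
    rw [le_div_iff₀ h32] at h
    linarith
  · have h := Lib.RHO6.lam_ge
    rw [div_le_iff₀ hl]
    rw [div_le_iff₀ h32] at h
    linarith
  · rw [one_div]
    refine (Lib.RHO6.tendsto_cyclic.inv₀ hl.ne').congr ?_
    intro n
    rw [inv_div]
  · rw [one_div_one_div]
    exact isLUB_csSup Lib.RHO6.Xs_ne Lib.RHO6.Xs_bdd
  · intro G _ _
    have h := Lib.RHO6.f_le_lam G
    rw [div_div_eq_mul_div, div_one]
    linarith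
  · intro G _ _ k s hs
    have h := Lib.RHO6.seq_le_lam s hs
    rw [div_div_eq_mul_div, div_one]
    linarith
  · rw [one_div_one_div]
    exact Lib.RHO6.small_rank
  · intro r m S hm hS hT n hn
    exact Lib.RHO6.product_to_zmod m hm S hT (Finset.card_pos.2 hS) n hn

end Pool.Agent.Results.MP_5a799b_co.LimitExists
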