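import Mathlib

open Finset Filter Topology

namespace Pool.Agent.Results.MP_5a799b_co.LogBounds

/-- The finite set `S` contains three pairwise disjoint subsets `A`, `B`, `C`,
not all empty, with equal sums. -/
def HasTriple {G : Type} [AddCommGroup G] (S : Finset G) : Prop :=
  ∃ A B C : Finset G, A ⊆ S ∧ B ⊆ S ∧ C ⊆ S ∧ Disjoint A B ∧ Disjoint A C ∧ Disjoint B C ∧
    (A.Nonempty ∨ B.Nonempty ∨ C.Nonempty) ∧
    ∑ x ∈ A, x = ∑ x ∈ B, x ∧ ∑ x ∈ B, x = ∑ x ∈ C, x

/-- `f(n, G)`: the least `k` such that every `S ⊆ G` with at least `k` elements contains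
three disjoint subsets, not all empty, with equal sums. -/
noncomputable def f (G : Type) [AddCommGroup G] : ℕ :=
  sInf {k : ℕ | ∀ S : Finset G, k ≤ S.card → HasTriple S}

/-- `F(n)`: the largest value of `f(n, G)` over the abelian groups `G` of order `n`. -/
noncomputable def F (n : ℕ) : ℕ :=
  sSup {m : ℕ | ∃ (G : Type) (_ : AddCommGroup G), Nat.card G = n ∧ f G = m}

/-! ### The cyclic triangle -/

/-- A family of functions to `ZMod 3` in which every ordered pair of distinct members has a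
coordinate where the second is one more than the first has at most `2 ^ k` members. -/
lemma card_le_two_pow {ι : Type} [Fintype ι] [DecidableEq ι] (W : Finset (ι → ZMod 3))
    (hW : ∀ u ∈ W, ∀ v ∈ W, u ≠ v → ∃ i, v i - u i = 1) :
    W.card ≤ 2 ^ Fintype.card ι := by
  classical
  have : Fact (Nat.Prime 3) := ⟨by norm_num⟩
  let A : Matrix W (Finset ι) (ZMod 3) := fun v T => ∏ i ∈ T, v.1 i
  let B : Matrix (Finset ι) W (ZMod 3) := fun T u => ∏ i ∈ univ \ T, (- u.1 i - 1)
  have hAB : A * B = ((-1 : ZMod 3) ^ Fintype.card ι) • (1 : Matrix W W (ZMod 3)) := by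
    ext v u
    have h1 : (A * B) v u = ∏ i : ι, (v.1 i + (- u.1 i - 1)) := by
      rw [Matrix.mul_apply, Finset.prod_add]
      simp only [Finset.powerset_univ]
      rfl
    rw [h1, Matrix.smul_apply, Matrix.one_apply]
    by_cases huv : v = u
    · subst huv
      have h2 : ∀ i : ι, (v.1 i + (- v.1 i - 1)) = -1 := by intro i; ring
      simp only [h2, Finset.prod_const, Finset.card_univ]
      simp
    · have hne : u.1 ≠ v.1 := fun h => huv (Subtype.ext h.symm)
      obtain ⟨i, hi⟩ := hW u.1 u.2 v.1 v.2 hne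
      have h3 : v.1 i + (- u.1 i - 1) = 0 := by
        have : v.1 i + (- u.1 i - 1) = (v.1 i - u.1 i) - 1 := by ring
        rw [this, hi]; ring
      rw [Finset.prod_eq_zero (Finset.mem_univ i) h3]
      simp [huv]
  have hr1 : (A * B).rank ≤ A.rank := Matrix.rank_mul_le_left A B
  have hr2 : A.rank ≤ Fintype.card (Finset ι) := Matrix.rank_le_card_width A
  have hr3 : (A * B).rank = Fintype.card W := by
    rw [hAB]
    have hunit : IsUnit (((-1 : ZMod 3) ^ Fintype.card ι) • (1 : Matrix W W (ZMod 3))) := by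
      have : (((-1 : ZMod 3) ^ Fintype.card ι) • (1 : Matrix W W (ZMod 3)))
          = algebraMap (ZMod 3) (Matrix W W (ZMod 3)) ((-1 : ZMod 3) ^ Fintype.card ι) := by
        rw [Algebra.algebraMap_eq_smul_one]
      rw [this]
      exact (IsUnit.pow _ (isUnit_one.neg)).map _
    exact Matrix.rank_of_isUnit _ hunit
  rw [hr3, Fintype.card_coe] at hr1
  calc W.card ≤ A.rank := hr1
    _ ≤ Fintype.card (Finset ι) := hr2
    _ = 2 ^ Fintype.card ι := by simp

/-- The sum of the two coordinates over a colouring with three colours. -/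
noncomputable def code {G : Type} [AddCommGroup G] (S : Finset G) (c : S → ZMod 3) : G × G :=
  (∑ s : S, (if c s = 0 then 0 else s.1), ∑ s : S, (if c s = 2 then s.1 else 0))

lemma sum_class {G : Type} [AddCommGroup G] [DecidableEq G] (S : Finset G) (p : S → Prop)
    [DecidablePred p] :
    ∑ x ∈ (univ.filter p).map (Function.Embedding.subtype _), x
      = ∑ s : S, (if p s then s.1 else 0) := by
  rw [Finset.sum_map, Finset.sum_filter]
  rfl

/-- If `S` has no triple, two different colourings with the same code differ by one, in the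
given order, at some element. -/
lemma exists_step {G : Type} [AddCommGroup G] (S : Finset G) (hS : ¬ HasTriple S)
    (u v : S → ZMod 3) (hne : u ≠ v) (hc : code S u = code S v) :
    ∃ i, v i - u i = 1 := by
  classical
  by_contra hcon
  push Not at hcon
  apply hS
  let pA : S → Prop := fun s => v s = 0 ∧ u s = 1
  let pB : S → Prop := fun s => v s = 1 ∧ u s = 2
  let pC : S → Prop := fun s => v s = 2 ∧ u s = 0
  let emb : S ↪ G := Function.Embedding.subtype _
  -- all pairs of values that may occur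
  have hval : ∀ s : S, (u s = v s) ∨ pA s ∨ pB s ∨ pC s := by
    intro s
    have h := hcon s
    have key : ∀ a b : ZMod 3, b - a ≠ 1 → (a = b) ∨ (b = 0 ∧ a = 1) ∨ (b = 1 ∧ a = 2) ∨
        (b = 2 ∧ a = 0) := by decide
    exact key (u s) (v s) h
  have hsub : ∀ p : S → Prop, ∀ [DecidablePred p], (univ.filter p).map emb ⊆ S := by
    intro p _ x hx
    rw [Finset.mem_map] at hx
    obtain ⟨s, _, rfl⟩ := hx
    exact s.2
  have hdis : ∀ p q : S → Prop, ∀ [DecidablePred p] [DecidablePred q],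
      (∀ s, ¬ (p s ∧ q s)) → Disjoint ((univ.filter p).map emb) ((univ.filter q).map emb) := by
    intro p q _ _ h
    rw [Finset.disjoint_map, Finset.disjoint_filter]
    intro s _ h1 h2
    exact h s ⟨h1, h2⟩
  have hd1 := congrArg Prod.fst hc
  have hd2 := congrArg Prod.snd hc
  simp only [code] at hd1 hd2
  -- the two relations
  have e1 : ∑ s : S, (if pA s then s.1 else (0 : G)) - ∑ s : S, (if pC s then s.1 else (0 : G))
      = ∑ s : S, (if u s = 0 then 0 else s.1) - ∑ s : S, (if v s = 0 then 0 else s.1) := by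
    rw [← Finset.sum_sub_distrib, ← Finset.sum_sub_distrib]
    apply Finset.sum_congr rfl
    intro s _
    rcases hval s with h | h | h | h
    · have hA : ¬ pA s := by
        rintro ⟨h1, h2⟩; rw [h, h1] at h2; exact absurd h2 (by decide)
      have hC : ¬ pC s := by
        rintro ⟨h1, h2⟩; rw [h, h1] at h2; exact absurd h2 (by decide)
      simp [hA, hC, h]
    · have hC : ¬ pC s := by
        rintro ⟨h1, h2⟩; rw [h.1] at h1; exact absurd h1 (by decide)
      have h0 : ¬ (u s = 0) := by rw [h.2]; decide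
      simp [h, hC, h0, h.1]
    · have hA : ¬ pA s := by
        rintro ⟨h1, h2⟩; rw [h.1] at h1; exact absurd h1 (by decide)
      have hC : ¬ pC s := by
        rintro ⟨h1, h2⟩; rw [h.1] at h1; exact absurd h1 (by decide)
      have h0 : ¬ (u s = 0) := by rw [h.2]; decide
      have h1 : ¬ (v s = 0) := by rw [h.1]; decide
      simp [hA, hC, h0, h1]
    · have hA : ¬ pA s := by
        rintro ⟨h1, h2⟩; rw [h.1] at h1; exact absurd h1 (by decide)
      have h1 : ¬ (v s = 0) := by rw [h.1]; decide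
      simp [hA, h, h1, h.2]
  have e2 : ∑ s : S, (if pB s then s.1 else (0 : G)) - ∑ s : S, (if pC s then s.1 else (0 : G))
      = ∑ s : S, (if u s = 2 then s.1 else 0) - ∑ s : S, (if v s = 2 then s.1 else 0) := by
    rw [← Finset.sum_sub_distrib, ← Finset.sum_sub_distrib]
    apply Finset.sum_congr rfl
    intro s _
    rcases hval s with h | h | h | h
    · have hB : ¬ pB s := by
        rintro ⟨h1, h2⟩; rw [h, h1] at h2; exact absurd h2 (by decide)
      have hC : ¬ pC s := by
        rintro ⟨h1, h2⟩; rw [h, h1] at h2; exact absurd h2 (by decide)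
      simp [hB, hC, h]
    · have hB : ¬ pB s := by
        rintro ⟨h1, h2⟩; rw [h.1] at h1; exact absurd h1 (by decide)
      have hC : ¬ pC s := by
        rintro ⟨h1, h2⟩; rw [h.1] at h1; exact absurd h1 (by decide)
      have h0 : ¬ (u s = 2) := by rw [h.2]; decide
      have h1 : ¬ (v s = 2) := by rw [h.1]; decide
      simp [hB, hC, h0, h1]
    · have hC : ¬ pC s := by
        rintro ⟨h1, h2⟩; rw [h.1] at h1; exact absurd h1 (by decide)
      have h1 : ¬ (v s = 2) := by rw [h.1]; decide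
      simp [h, hC, h1, h.2]
    · have hB : ¬ pB s := by
        rintro ⟨h1, h2⟩; rw [h.1] at h1; exact absurd h1 (by decide)
      have h0 : ¬ (u s = 2) := by rw [h.2]; decide
      simp [hB, h, h0, h.1]
  rw [hd1, sub_self] at e1
  rw [hd2, sub_self] at e2
  refine ⟨(univ.filter pA).map emb, (univ.filter pB).map emb, (univ.filter pC).map emb,
    hsub pA, hsub pB, hsub pC, hdis pA pB ?_, hdis pA pC ?_, hdis pB pC ?_, ?_, ?_, ?_⟩
  · rintro s ⟨h1, h2⟩; have := h1.1.symm.trans h2.1; exact absurd this (by decide)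
  · rintro s ⟨h1, h2⟩; have := h1.1.symm.trans h2.1; exact absurd this (by decide)
  · rintro s ⟨h1, h2⟩; have := h1.1.symm.trans h2.1; exact absurd this (by decide)
  · obtain ⟨s, hs⟩ := Function.ne_iff.mp hne
    rcases hval s with h | h | h | h
    · exact absurd h hs
    · left; exact ⟨s.1, Finset.mem_map.mpr ⟨s, by simp [h], rfl⟩⟩
    · right; left; exact ⟨s.1, Finset.mem_map.mpr ⟨s, by simp [h], rfl⟩⟩
    · right; right; exact ⟨s.1, Finset.mem_map.mpr ⟨s, by simp [h], rfl⟩⟩
  · rw [sum_class S pA, sum_class S pB, sub_eq_zero.mp e1, sub_eq_zero.mp e2]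
  · rw [sum_class S pB, sum_class S pC, sub_eq_zero.mp e2]

/-- The counting inequality. -/
lemma three_pow_le {G : Type} [AddCommGroup G] [Finite G] (S : Finset G) (hS : ¬ HasTriple S) :
    3 ^ S.card ≤ Nat.card G ^ 2 * 2 ^ S.card := by
  classical
  have := Fintype.ofFinite G
  have h1 : (univ : Finset (S → ZMod 3)).card
      = ∑ g ∈ (univ : Finset (G × G)), (univ.filter (fun c : S → ZMod 3 => code S c = g)).card :=
    Finset.card_eq_sum_card_fiberwise (fun _ _ => Finset.mem_coe.mpr (Finset.mem_univ _))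
  have h2 : ∀ g ∈ (univ : Finset (G × G)),
      (univ.filter (fun c : S → ZMod 3 => code S c = g)).card ≤ 2 ^ S.card := by
    intro g _
    have := card_le_two_pow (univ.filter (fun c : S → ZMod 3 => code S c = g)) (by
      intro u hu v hv huv
      rw [Finset.mem_filter] at hu hv
      exact exists_step S hS u v huv (hu.2.trans hv.2.symm))
    rwa [Fintype.card_coe] at this
  have h3 := Finset.sum_le_card_nsmul _ _ _ h2
  rw [← h1, Finset.card_univ, Finset.card_univ] at h3
  have h4 : Fintype.card (S → ZMod 3) = 3 ^ S.card := by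
    rw [Fintype.card_fun, ZMod.card, Fintype.card_coe]
  rw [h4, Fintype.card_prod, smul_eq_mul] at h3
  rw [Nat.card_eq_fintype_card, sq]
  exact h3

lemma log32_pos : 0 < Real.log (3 / 2) := Real.log_pos (by norm_num)

lemma card_le_log {G : Type} [AddCommGroup G] [Finite G] (S : Finset G) (hS : ¬ HasTriple S) :
    (S.card : ℝ) ≤ 2 * Real.log (Nat.card G) / Real.log (3 / 2) := by
  have hn : 0 < Nat.card G := Nat.card_pos
  have hnr : (0 : ℝ) < (Nat.card G : ℝ) := by exact_mod_cast hn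
  have h := three_pow_le S hS
  have h' : (3 : ℝ) ^ S.card ≤ (Nat.card G : ℝ) ^ 2 * 2 ^ S.card := by exact_mod_cast h
  have h2 := Real.log_le_log (by positivity) h'
  rw [Real.log_mul (by positivity) (by positivity), Real.log_pow, Real.log_pow, Real.log_pow] at h2
  rw [le_div_iff₀ log32_pos, Real.log_div (by norm_num) (by norm_num)]
  push_cast at h2
  nlinarith

/-- The defining set of `f` contains a number at most `2 log n / log (3/2) + 1`. -/
lemma mem_of_gt {G : Type} [AddCommGroup G] [Finite G] (k : ℕ)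
    (hk : 2 * Real.log (Nat.card G) / Real.log (3 / 2) < k) :
    ∀ S : Finset G, k ≤ S.card → HasTriple S := by
  intro S hkS
  by_contra hS
  have h := card_le_log S hS
  have : (k : ℝ) ≤ S.card := by exact_mod_cast hkS
  linarith

lemma f_le {G : Type} [AddCommGroup G] [Finite G] :
    (f G : ℝ) ≤ 2 * Real.log (Nat.card G) / Real.log (3 / 2) + 1 := by
  set x := 2 * Real.log (Nat.card G) / Real.log (3 / 2) with hx
  have hx0 : 0 ≤ x := by
    rw [hx]
    have hn : 0 < Nat.card G := Nat.card_pos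
    have : 0 ≤ Real.log (Nat.card G) := Real.log_nonneg (by exact_mod_cast hn)
    have := log32_pos
    positivity
  have h1 : f G ≤ ⌊x⌋₊ + 1 :=
    Nat.sInf_le (mem_of_gt (⌊x⌋₊ + 1) (by push_cast; exact Nat.lt_floor_add_one x))
  have h2 : (⌊x⌋₊ : ℝ) ≤ x := Nat.floor_le hx0
  have h3 : (f G : ℝ) ≤ (⌊x⌋₊ : ℝ) + 1 := by exact_mod_cast h1
  linarith

lemma lt_f {G : Type} [AddCommGroup G] [Finite G] (S : Finset G) (hS : ¬ HasTriple S) :
    S.card < f G := by
  have hne : {k : ℕ | ∀ S : Finset G, k ≤ S.card → HasTriple S}.Nonempty :=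
    ⟨⌊2 * Real.log (Nat.card G) / Real.log (3 / 2)⌋₊ + 1,
      mem_of_gt _ (by push_cast; exact Nat.lt_floor_add_one _)⟩
  have hmem := Nat.sInf_mem hne
  by_contra hcon
  push Not at hcon
  exact hS (hmem S hcon)

/-! ### The example in cyclic groups -/

/-- A set of naturals in which twice each element exceeds the sum of the smaller ones has no
three disjoint subsets with equal sums, except three empty ones. -/
lemma nat_no_triple (T : Finset ℕ) (hT : ∀ x ∈ T, ∑ y ∈ T.filter (fun y => y < x), y < 2 * x)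
    (A B C : Finset ℕ) (hA : A ⊆ T) (hB : B ⊆ T) (hC : C ⊆ T) (hAB : Disjoint A B)
    (hAC : Disjoint A C) (hBC : Disjoint B C) (h1 : ∑ x ∈ A, x = ∑ x ∈ B, x)
    (h2 : ∑ x ∈ B, x = ∑ x ∈ C, x) : ¬ (A.Nonempty ∨ B.Nonempty ∨ C.Nonempty) := by
  classical
  -- the case where the largest element lies in the first set
  have key : ∀ A B C : Finset ℕ, A ⊆ T → B ⊆ T → C ⊆ T → Disjoint A B → Disjoint A C →
      Disjoint B C → ∑ x ∈ A, x = ∑ x ∈ B, x → ∑ x ∈ A, x = ∑ x ∈ C, x →
      ∀ x ∈ A, (∀ y ∈ B, y ≤ x) → (∀ y ∈ C, y ≤ x) → False := by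
    intro A B C hA hB hC hAB hAC hBC e1 e2 x hx hxB hxC
    have hsub : B ∪ C ⊆ T.filter (fun y => y < x) := by
      intro y hy
      rw [Finset.mem_filter]
      rcases Finset.mem_union.mp hy with h | h
      · refine ⟨hB h, lt_of_le_of_ne (hxB y h) ?_⟩
        rintro rfl
        exact (Finset.disjoint_left.mp hAB hx) h
      · refine ⟨hC h, lt_of_le_of_ne (hxC y h) ?_⟩
        rintro rfl
        exact (Finset.disjoint_left.mp hAC hx) h
    have h3 : ∑ y ∈ B ∪ C, y ≤ ∑ y ∈ T.filter (fun y => y < x), y :=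
      Finset.sum_le_sum_of_subset hsub
    rw [Finset.sum_union hBC] at h3
    have h4 := hT x (hA hx)
    have h5 : x ≤ ∑ y ∈ A, y :=
      Finset.single_le_sum (f := fun y => y) (fun _ _ => Nat.zero_le _) hx
    omega
  intro hne
  have hU : (A ∪ B ∪ C).Nonempty := by
    rcases hne with ⟨x, hx⟩ | ⟨x, hx⟩ | ⟨x, hx⟩
    · exact ⟨x, by simp [hx]⟩
    · exact ⟨x, by simp [hx]⟩
    · exact ⟨x, by simp [hx]⟩
  obtain ⟨x, hx, hmax⟩ := Finset.exists_max_image (A ∪ B ∪ C) (fun y => y) hU
  have hmA : ∀ y ∈ A, y ≤ x := fun y hy => hmax y (by simp [hy])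
  have hmB : ∀ y ∈ B, y ≤ x := fun y hy => hmax y (by simp [hy])
  have hmC : ∀ y ∈ C, y ≤ x := fun y hy => hmax y (by simp [hy])
  rcases Finset.mem_union.mp hx with h | h
  · rcases Finset.mem_union.mp h with h | h
    · exact key A B C hA hB hC hAB hAC hBC h1 (h1.trans h2) x h hmB hmC
    · exact key B A C hB hA hC hAB.symm hBC hAC h1.symm h2 x h hmA hmC
  · exact key C A B hC hA hB hAC.symm hBC.symm hAB (h1.trans h2).symm h2.symm x h hmA hmB

/-- Transfer to the integers modulo `n`. -/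
lemma zmod_no_triple (n : ℕ) [NeZero n] (T : Finset ℕ)
    (hT : ∀ x ∈ T, ∑ y ∈ T.filter (fun y => y < x), y < 2 * x) (hn : ∑ x ∈ T, x < n) :
    ∃ S : Finset (ZMod n), S.card = T.card ∧ ¬ HasTriple S := by
  classical
  have hlt : ∀ A : Finset ℕ, A ⊆ T → ∑ x ∈ A, x < n := fun A hA =>
    lt_of_le_of_lt (Finset.sum_le_sum_of_subset hA) hn
  have hel : ∀ x ∈ T, x < n := fun x hx =>
    lt_of_le_of_lt (Finset.single_le_sum (f := fun y => y) (fun _ _ => Nat.zero_le _) hx) hn
  have hinj : Set.InjOn (fun x : ℕ => (x : ZMod n)) (T : Set ℕ) := by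
    intro x hx y hy hxy
    have h := (ZMod.natCast_eq_natCast_iff' x y n).mp hxy
    rwa [Nat.mod_eq_of_lt (hel x hx), Nat.mod_eq_of_lt (hel y hy)] at h
  refine ⟨T.image (fun x : ℕ => (x : ZMod n)), Finset.card_image_of_injOn hinj, ?_⟩
  rintro ⟨A, B, C, hA, hB, hC, hAB, hAC, hBC, hne, e1, e2⟩
  -- pull back
  let pull : Finset (ZMod n) → Finset ℕ := fun D => T.filter (fun x => (x : ZMod n) ∈ D)
  have hpT : ∀ D, pull D ⊆ T := fun D => Finset.filter_subset _ _
  have himg : ∀ D : Finset (ZMod n), D ⊆ T.image (fun x : ℕ => (x : ZMod n)) →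
      (pull D).image (fun x : ℕ => (x : ZMod n)) = D := by
    intro D hD
    ext z
    simp only [pull, Finset.mem_image, Finset.mem_filter]
    constructor
    · rintro ⟨x, ⟨_, hx⟩, rfl⟩; exact hx
    · intro hz
      obtain ⟨x, hx, rfl⟩ := Finset.mem_image.mp (hD hz)
      exact ⟨x, ⟨hx, hz⟩, rfl⟩
  have hsum : ∀ D : Finset (ZMod n), D ⊆ T.image (fun x : ℕ => (x : ZMod n)) →
      ∑ z ∈ D, z = ((∑ x ∈ pull D, x : ℕ) : ZMod n) := by
    intro D hD
    conv_lhs => rw [← himg D hD]
    rw [Finset.sum_image (fun x hx y hy h => hinj (hpT D hx) (hpT D hy) h)]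
    push_cast
    rfl
  have hdis : ∀ D E : Finset (ZMod n), Disjoint D E → Disjoint (pull D) (pull E) := by
    intro D E h
    rw [Finset.disjoint_left]
    intro x hx hx'
    exact Finset.disjoint_left.mp h (Finset.mem_filter.mp hx).2 (Finset.mem_filter.mp hx').2
  have hnon : ∀ D : Finset (ZMod n), D ⊆ T.image (fun x : ℕ => (x : ZMod n)) → D.Nonempty →
      (pull D).Nonempty := by
    intro D hD h
    rw [← himg D hD] at h
    exact (Finset.image_nonempty.mp h)
  have heq : ∀ D E : Finset (ZMod n), D ⊆ T.image (fun x : ℕ => (x : ZMod n)) →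
      E ⊆ T.image (fun x : ℕ => (x : ZMod n)) → ∑ z ∈ D, z = ∑ z ∈ E, z →
      ∑ x ∈ pull D, x = ∑ x ∈ pull E, x := by
    intro D E hD hE h
    rw [hsum D hD, hsum E hE] at h
    have h' := (ZMod.natCast_eq_natCast_iff' _ _ n).mp h
    rwa [Nat.mod_eq_of_lt (hlt _ (hpT D)), Nat.mod_eq_of_lt (hlt _ (hpT E))] at h'
  refine nat_no_triple T hT (pull A) (pull B) (pull C) (hpT A) (hpT B) (hpT C) (hdis A B hAB)
    (hdis A C hAC) (hdis B C hBC) (heq A B hA hB e1) (heq B C hB hC e2) ?_
  rcases hne with h | h | h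
  · exact Or.inl (hnon A hA h)
  · exact Or.inr (Or.inl (hnon B hB h))
  · exact Or.inr (Or.inr (hnon C hC h))

/-- The sets `1, 2, 3, 4, 6, 9, 13, ...`. -/
lemma exists_set (j : ℕ) : ∃ T : Finset ℕ, T.card = j + 3 ∧ (∀ x ∈ T, 2 * x ≤ ∑ y ∈ T, y) ∧
    (∀ x ∈ T, ∑ y ∈ T.filter (fun y => y < x), y < 2 * x) ∧ 6 ≤ ∑ y ∈ T, y ∧
    2 ^ j * (∑ y ∈ T, y + 2) ≤ 8 * 3 ^ j := by
  classical
  induction j with
  | zero =>
    refine ⟨{1, 2, 3}, by decide, by decide, by decide, by decide, by decide⟩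
  | succ j ih =>
    obtain ⟨T, hcard, hhalf, hbal, h6, hsum⟩ := ih
    set s := ∑ y ∈ T, y with hs
    have hnot : s / 2 + 1 ∉ T := by
      intro h
      have := hhalf _ h
      omega
    refine ⟨insert (s / 2 + 1) T, ?_, ?_, ?_, ?_, ?_⟩
    · rw [Finset.card_insert_of_notMem hnot, hcard]
    · intro x hx
      rw [Finset.sum_insert hnot, ← hs]
      rcases Finset.mem_insert.mp hx with h | h
      · subst h; omega
      · have := hhalf x h; omega
    · intro x hx
      rcases Finset.mem_insert.mp hx with h | h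
      · subst h
        rw [Finset.filter_insert, if_neg (lt_irrefl _)]
        have : ∑ y ∈ T.filter (fun y => y < s / 2 + 1), y ≤ s :=
          Finset.sum_le_sum_of_subset (Finset.filter_subset _ _)
        omega
      · rw [Finset.filter_insert, if_neg (by have := hhalf x h; omega)]
        exact hbal x h
    · rw [Finset.sum_insert hnot, ← hs]; omega
    · rw [Finset.sum_insert hnot, ← hs]
      have h1 : 2 * (s / 2 + 1 + s + 2) ≤ 3 * (s + 2) := by omega
      calc 2 ^ (j + 1) * (s / 2 + 1 + s + 2) = 2 ^ j * (2 * (s / 2 + 1 + s + 2)) := by ring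
        _ ≤ 2 ^ j * (3 * (s + 2)) := Nat.mul_le_mul_left _ h1
        _ = 3 * (2 ^ j * (s + 2)) := by ring
        _ ≤ 3 * (8 * 3 ^ j) := Nat.mul_le_mul_left _ hsum
        _ = 8 * 3 ^ (j + 1) := by ring

lemma le_f_zmod (n : ℕ) (hn : 5 ≤ n) :
    Real.log n / Real.log (3 / 2) - 3 ≤ (f (ZMod n) : ℝ) := by
  have : NeZero n := ⟨by omega⟩
  have hL := log32_pos
  have hnpos : (0 : ℝ) < n := by exact_mod_cast (by omega : 0 < n)
  -- the largest j with 8 (3/2)^j < n + 2
  by_cases h7 : n < 7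
  · -- n = 5 or 6
    obtain ⟨S, hS, hno⟩ := zmod_no_triple n {1, 2} (by decide) (by
      have : ∑ x ∈ ({1, 2} : Finset ℕ), x = 3 := by decide
      rw [this]; omega)
    have h1 := lt_f S hno
    have h2 : S.card = 2 := by rw [hS]; decide
    have h3 : (3 : ℝ) ≤ f (ZMod n) := by
      have : 3 ≤ f (ZMod n) := by omega
      exact_mod_cast this
    have h4 : Real.log n / Real.log (3 / 2) ≤ 6 := by
      rw [div_le_iff₀ hL]
      have h5 : Real.log n ≤ Real.log ((3 / 2 : ℝ) ^ 6) := by
        apply Real.log_le_log hnpos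
        have : (n : ℝ) ≤ 6 := by exact_mod_cast (by omega : n ≤ 6)
        norm_num
        linarith
      rw [Real.log_pow] at h5
      push_cast at h5
      linarith
    linarith
  · push Not at h7
    have hex : ∃ j : ℕ, ¬ (8 * 3 ^ j < 2 ^ j * (n + 2)) := by
      obtain ⟨j, hj⟩ := pow_unbounded_of_one_lt (R := ℝ) ((n : ℝ) + 2) (by norm_num : (1 : ℝ) < 3 / 2)
      refine ⟨j, ?_⟩
      push Not
      have h1 : ((2 : ℝ) ^ j * (n + 2)) ≤ 8 * 3 ^ j := by
        rw [div_pow, lt_div_iff₀ (by positivity)] at hj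
        have : (0 : ℝ) < 3 ^ j := by positivity
        nlinarith
      exact_mod_cast h1
    classical
    have hspec := Nat.find_spec hex
    have hmin := fun m (hm : m < Nat.find hex) => Nat.find_min hex hm
    obtain ⟨m, hm⟩ : ∃ m, Nat.find hex = m := ⟨_, rfl⟩
    rw [hm] at hspec hmin
    cases m with
    | zero => exact absurd (by simp; omega : 8 * 3 ^ 0 < 2 ^ 0 * (n + 2)) hspec
    | succ j =>
      have hj : 8 * 3 ^ j < 2 ^ j * (n + 2) := by
        have := hmin j (Nat.lt_succ_self j)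
        push Not at this
        exact this
      obtain ⟨T, hcard, -, hbal, -, hsum⟩ := exists_set j
      have hlt : ∑ x ∈ T, x < n := by
        have h1 : 2 ^ j * (∑ y ∈ T, y + 2) < 2 ^ j * (n + 2) := lt_of_le_of_lt hsum hj
        have := Nat.lt_of_mul_lt_mul_left h1
        omega
      obtain ⟨S, hS, hno⟩ := zmod_no_triple n T hbal hlt
      have h1 := lt_f S hno
      have h2 : j + 4 ≤ f (ZMod n) := by omega
      have h3 : ((j : ℝ) + 4) ≤ f (ZMod n) := by exact_mod_cast h2
      push Not at hspec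
      have h4 : ((2 : ℝ) ^ (j + 1) * (n + 2)) ≤ 8 * 3 ^ (j + 1) := by exact_mod_cast hspec
      have h5 : (n : ℝ) ≤ (3 / 2 : ℝ) ^ (j + 7) := by
        have e8 : (8 : ℝ) ≤ (3 / 2) ^ 6 := by norm_num
        have e9 : (n : ℝ) ≤ 8 * (3 / 2 : ℝ) ^ (j + 1) := by
          rw [div_pow, mul_div_assoc', le_div_iff₀ (by positivity)]
          have : (0 : ℝ) < 2 ^ (j + 1) := by positivity
          nlinarith
        calc (n : ℝ) ≤ 8 * (3 / 2 : ℝ) ^ (j + 1) := e9
          _ ≤ (3 / 2) ^ 6 * (3 / 2 : ℝ) ^ (j + 1) := by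
              apply mul_le_mul_of_nonneg_right e8 (by positivity)
          _ = (3 / 2 : ℝ) ^ (j + 7) := by rw [← pow_add]; congr 1; ring
      have h6 : Real.log n ≤ ((j : ℝ) + 7) * Real.log (3 / 2) := by
        have := Real.log_le_log hnpos h5
        rw [Real.log_pow] at this
        push_cast at this
        exact this
      have h7 : Real.log n / Real.log (3 / 2) ≤ (j : ℝ) + 7 := by
        rw [div_le_iff₀ hL]; exact h6
      linarith

/-! ### The main statement -/

lemma F_bounds (n : ℕ) (hn : 5 ≤ n) :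
    f (ZMod n) ≤ F n ∧ (F n : ℝ) ≤ 2 * Real.log n / Real.log (3 / 2) + 1 := by
  have : NeZero n := ⟨by omega⟩
  have hfin : ∀ (G : Type) (_ : AddCommGroup G), Nat.card G = n → Finite G := by
    intro G _ h
    exact Nat.finite_of_card_ne_zero (by omega)
  have hub : ∀ m ∈ {m : ℕ | ∃ (G : Type) (_ : AddCommGroup G), Nat.card G = n ∧ f G = m},
      (m : ℝ) ≤ 2 * Real.log n / Real.log (3 / 2) + 1 := by
    rintro m ⟨G, inst, hG, rfl⟩
    have := hfin G inst hG
    have h := f_le (G := G)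
    rwa [hG] at h
  have hmem : f (ZMod n) ∈ {m : ℕ | ∃ (G : Type) (_ : AddCommGroup G), Nat.card G = n ∧ f G = m} :=
    ⟨ZMod n, inferInstance, Nat.card_zmod n, rfl⟩
  have hbdd : BddAbove {m : ℕ | ∃ (G : Type) (_ : AddCommGroup G), Nat.card G = n ∧ f G = m} := by
    refine ⟨⌊2 * Real.log n / Real.log (3 / 2) + 1⌋₊, ?_⟩
    intro m hm
    exact Nat.le_floor (hub m hm)
  constructor
  · exact le_csSup hbdd hmem
  · exact hub _ (Nat.sSup_mem ⟨_, hmem⟩ hbdd)

/-- Two-sided logarithmic bounds for `F(n)`, and the resulting bounds for `ρ`. -/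
theorem result :
    (∀ n : ℕ, 5 ≤ n →
      Real.log n / Real.log (3 / 2) - 3 ≤ (f (ZMod n) : ℝ) ∧ f (ZMod n) ≤ F n ∧
      (F n : ℝ) ≤ 2 * Real.log n / Real.log (3 / 2) + 1) ∧
    (∀ ε : ℝ, 0 < ε → ∀ᶠ n : ℕ in atTop,
      Real.log (3 / 2) / 2 - ε ≤ Real.log n / (F n : ℝ) ∧
        Real.log n / (F n : ℝ) ≤ Real.log (3 / 2) + ε) ∧
    (∀ ρ : ℝ, Tendsto (fun n : ℕ => Real.log n / (F n : ℝ)) atTop (𝓝 ρ) →
      Real.log (3 / 2) / 2 ≤ ρ ∧ ρ ≤ Real.log (3 / 2)) := by
  have hL := log32_pos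
  set L := Real.log (3 / 2) with hLdef
  have hlog : Tendsto (fun n : ℕ => Real.log (n : ℝ)) atTop atTop :=
    Real.tendsto_log_atTop.comp tendsto_natCast_atTop_atTop
  have hinv : Tendsto (fun n : ℕ => (Real.log (n : ℝ))⁻¹) atTop (𝓝 0) :=
    tendsto_inv_atTop_zero.comp hlog
  -- lower comparison function
  have hlow : Tendsto (fun n : ℕ => (2 / L + (Real.log (n : ℝ))⁻¹)⁻¹) atTop (𝓝 (L / 2)) := by
    have h1 : Tendsto (fun n : ℕ => 2 / L + (Real.log (n : ℝ))⁻¹) atTop (𝓝 (2 / L + 0)) :=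
      tendsto_const_nhds.add hinv
    have h2 := h1.inv₀ (by positivity)
    have h3 : (2 / L + 0)⁻¹ = L / 2 := by rw [add_zero, inv_div]
    rwa [h3] at h2
  have hupp : Tendsto (fun n : ℕ => (1 / L - 3 * (Real.log (n : ℝ))⁻¹)⁻¹) atTop (𝓝 L) := by
    have h1 : Tendsto (fun n : ℕ => 1 / L - 3 * (Real.log (n : ℝ))⁻¹) atTop
        (𝓝 (1 / L - 3 * 0)) := tendsto_const_nhds.sub (hinv.const_mul 3)
    have h2 := h1.inv₀ (by rw [mul_zero, sub_zero]; positivity)
    have h3 : (1 / L - 3 * 0)⁻¹ = L := by rw [mul_zero, sub_zero, inv_div, div_one]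
    rwa [h3] at h2
  have hev : ∀ᶠ n : ℕ in atTop, (2 / L + (Real.log (n : ℝ))⁻¹)⁻¹ ≤ Real.log n / (F n : ℝ) ∧
      Real.log n / (F n : ℝ) ≤ (1 / L - 3 * (Real.log (n : ℝ))⁻¹)⁻¹ := by
    filter_upwards [eventually_ge_atTop 5, hlog.eventually_gt_atTop (3 * L),
      hlog.eventually_gt_atTop 0] with n hn hbig hpos
    obtain ⟨hb0, hb2⟩ := F_bounds n hn
    have hb1 : Real.log n / L - 3 ≤ (F n : ℝ) :=
      le_trans (le_f_zmod n hn) (by exact_mod_cast hb0)
    rw [← hLdef] at hb2
    have hden : 0 < Real.log n / L - 3 := by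
      rw [sub_pos, lt_div_iff₀ hL]; exact hbig
    have hF : 0 < (F n : ℝ) := lt_of_lt_of_le hden hb1
    constructor
    · have e1 : (2 / L + (Real.log (n : ℝ))⁻¹)⁻¹ = Real.log n / (2 * Real.log n / L + 1) := by
        field_simp
      rw [e1]
      exact div_le_div_of_nonneg_left hpos.le hF hb2
    · have e2 : (1 / L - 3 * (Real.log (n : ℝ))⁻¹)⁻¹ = Real.log n / (Real.log n / L - 3) := by
        have hne : Real.log n ≠ 0 := hpos.ne'
        rw [eq_div_iff hden.ne', inv_mul_eq_div, div_eq_iff]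
        · field_simp
        · have : 1 / L - 3 * (Real.log (n : ℝ))⁻¹ = (Real.log n / L - 3) / Real.log n := by
            field_simp
          rw [this]
          exact (div_pos hden hpos).ne'
      rw [e2]
      exact div_le_div_of_nonneg_left hpos.le hden hb1
  refine ⟨fun n hn => ⟨le_f_zmod n hn, (F_bounds n hn).1, (F_bounds n hn).2⟩, ?_, ?_⟩
  · intro ε hε
    have h1 := hlow.eventually (lt_mem_nhds (by linarith : L / 2 - ε < L / 2))
    have h2 := hupp.eventually (gt_mem_nhds (by linarith : L < L + ε))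
    filter_upwards [hev, h1, h2] with n hn h1 h2
    exact ⟨le_trans h1.le hn.1, le_trans hn.2 h2.le⟩
  · intro ρ hρ
    exact ⟨le_of_tendsto_of_tendsto hlow hρ (hev.mono fun n h => h.1),
      le_of_tendsto_of_tendsto hρ hupp (hev.mono fun n h => h.2)⟩

end Pool.Agent.Results.MP_5a799b_co.LogBounds
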