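import Mathlib
import Pool.Agent.Lib.RHO4.C

set_option autoImplicit false

namespace Pool.Agent.Results.MP_5a799b_co.Supersaturation

open Finset Pool.Agent.Lib.RHO4

section

variable {ι G : Type} [Fintype ι] [DecidableEq ι] [DecidableEq G] [AddCommGroup G]

/-- The weighted number of ordered triples of pairwise disjoint index sets `A, B, C` with equal
sums; the triple `A, B, C` has weight `3 ^ (k - |A| - |B| - |C|)`, where `k` is the length of the
sequence. -/
def weight (s : ι → G) : ℕ :=
  ∑ t ∈ triples s, 3 ^ (Fintype.card ι - (t.1.card + t.2.1.card + t.2.2.card))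

/-- The only pairwise disjoint index sets `A, B, C` with equal sums are `∅, ∅, ∅`. -/
def TripleFree (s : ι → G) : Prop :=
  ∀ A B C : Finset ι, Disjoint A B → Disjoint A C → Disjoint B C →
    ∑ i ∈ A, s i = ∑ i ∈ B, s i → ∑ i ∈ B, s i = ∑ i ∈ C, s i → A = ∅ ∧ B = ∅ ∧ C = ∅

theorem weight_of_free (s : ι → G) (h : TripleFree s) : weight s ≤ 3 ^ (Fintype.card ι) := by
  unfold weight
  have hsub : triples s ⊆ {(∅, ∅, ∅)} := by
    intro t ht
    unfold triples at ht
    rw [Finset.mem_filter] at ht
    obtain ⟨_, h1, h2, h3, h4, h5⟩ := ht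
    obtain ⟨e1, e2, e3⟩ := h t.1 t.2.1 t.2.2 h1 h2 h3 h4 h5
    rw [Finset.mem_singleton]
    exact Prod.ext e1 (Prod.ext e2 e3)
  refine le_trans (Finset.sum_le_sum_of_subset hsub) ?_
  rw [Finset.sum_singleton]
  simp

theorem first (s : ι → G) :
    9 ^ (Fintype.card ι) ≤
      (∑ W : Finset ι, (sums s W).card * (sums s Wᶜ).card) * weight s := by
  have h1 := step1 s
  have h2 : 9 ^ (Fintype.card ι) ≤ (jset s).card * (prs s).card := by exact_mod_cast h1
  have h3 : ∑ W : Finset ι, (sums s Wᶜ).card * (sums s W).card =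
      ∑ W : Finset ι, (sums s W).card * (sums s Wᶜ).card :=
    Finset.sum_congr rfl (fun W _ => mul_comm _ _)
  refine le_trans h2 (Nat.mul_le_mul ?_ (card_prs s))
  rw [← h3]
  exact card_jset s

theorem second (s : ι → G) :
    18 ^ (Fintype.card ι) ≤ (∑ W : Finset ι, (sums s W).card) ^ 2 * weight s := main s

theorem mono (s : ι → G) {W W' : Finset ι} (h : W ⊆ W') : sums s W ⊆ sums s W' := by
  unfold sums
  exact Finset.image_subset_image (Finset.powerset_mono.2 h)

theorem third (s : ι → G) :
    9 ^ (Fintype.card ι) ≤ 2 ^ (Fintype.card ι) * (sums s univ).card ^ 2 * weight s := by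
  refine le_trans (first s) (Nat.mul_le_mul_right _ ?_)
  have h : ∀ W : Finset ι, (sums s W).card * (sums s Wᶜ).card ≤ (sums s univ).card ^ 2 := by
    intro W
    rw [sq]
    exact Nat.mul_le_mul (Finset.card_le_card (mono s (Finset.subset_univ W)))
      (Finset.card_le_card (mono s (Finset.subset_univ Wᶜ)))
  refine le_trans (Finset.sum_le_sum (fun W _ => h W)) ?_
  rw [Finset.sum_const, Finset.card_univ, Fintype.card_finset, smul_eq_mul]

/-- many triples: the weight is at most `3 ^ k + 3 ^ (k - 1) * (number of nontrivial triples)` -/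
theorem fourth (s : ι → G) :
    3 * weight s ≤ 3 ^ (Fintype.card ι) *
      (3 + ((triples s).filter (fun t => t ≠ (∅, ∅, ∅))).card) := by
  unfold weight
  have hmem : ((∅, ∅, ∅) : Finset ι × Finset ι × Finset ι) ∈ triples s := by
    unfold triples
    rw [Finset.mem_filter]
    simp
  have hle : ∀ t ∈ triples s, t ≠ (∅, ∅, ∅) →
      3 * 3 ^ (Fintype.card ι - (t.1.card + t.2.1.card + t.2.2.card)) ≤ 3 ^ (Fintype.card ι) := by
    intro t ht hne
    unfold triples at ht
    rw [Finset.mem_filter] at ht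
    obtain ⟨_, h1, h2, h3, _, _⟩ := ht
    have hc : (t.1 ∪ t.2.1 ∪ t.2.2).card = t.1.card + t.2.1.card + t.2.2.card := by
      rw [Finset.card_union_of_disjoint (Finset.disjoint_union_left.2 ⟨h2, h3⟩),
        Finset.card_union_of_disjoint h1]
    have hle : t.1.card + t.2.1.card + t.2.2.card ≤ Fintype.card ι := by
      rw [← hc]
      exact Finset.card_le_univ _
    have hpos : 1 ≤ t.1.card + t.2.1.card + t.2.2.card := by
      by_contra hcon
      apply hne
      have e1 : t.1.card = 0 := by omega
      have e2 : t.2.1.card = 0 := by omega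
      have e3 : t.2.2.card = 0 := by omega
      exact Prod.ext (Finset.card_eq_zero.1 e1)
        (Prod.ext (Finset.card_eq_zero.1 e2) (Finset.card_eq_zero.1 e3))
    rw [← pow_succ']
    exact Nat.pow_le_pow_right (by norm_num) (by omega)
  rw [← Finset.add_sum_erase _ _ hmem, mul_add, mul_add, Finset.mul_sum]
  have e1 : 3 * 3 ^ (Fintype.card ι - ((∅ : Finset ι).card + (∅ : Finset ι).card +
      (∅ : Finset ι).card)) = 3 ^ (Fintype.card ι) * 3 := by
    simp [mul_comm]
  have e2 : (triples s).erase (∅, ∅, ∅) = (triples s).filter (fun t => t ≠ (∅, ∅, ∅)) := by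
    ext t
    rw [Finset.mem_erase, Finset.mem_filter]
    tauto
  rw [e2]
  refine Nat.add_le_add (le_of_eq e1) ?_
  have h : ∀ t ∈ (triples s).filter (fun t => t ≠ (∅, ∅, ∅)),
      3 * 3 ^ (Fintype.card ι - (t.1.card + t.2.1.card + t.2.2.card)) ≤ 3 ^ (Fintype.card ι) := by
    intro t ht
    rw [Finset.mem_filter] at ht
    exact hle t ht.1 ht.2
  refine le_trans (Finset.sum_le_card_nsmul _ _ _ h) ?_
  rw [smul_eq_mul, mul_comm]

/-- Let `s` be a finite sequence of length `k` in an abelian group; `sums s W` is the set of the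
subset sums of the part `W`. -/
theorem result (s : ι → G) :
    9 ^ (Fintype.card ι) ≤
      (∑ W : Finset ι, (sums s W).card * (sums s Wᶜ).card) * weight s ∧
    18 ^ (Fintype.card ι) ≤ (∑ W : Finset ι, (sums s W).card) ^ 2 * weight s ∧
    3 * 3 ^ (Fintype.card ι) ≤ 2 ^ (Fintype.card ι) * (sums s univ).card ^ 2 *
      (3 + ((triples s).filter (fun t => t ≠ (∅, ∅, ∅))).card) ∧
    (TripleFree s →
      3 ^ (Fintype.card ι) ≤ ∑ W : Finset ι, (sums s W).card * (sums s Wᶜ).card ∧
      6 ^ (Fintype.card ι) ≤ (∑ W : Finset ι, (sums s W).card) ^ 2) := by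
  have hpos : 0 < 3 ^ (Fintype.card ι) := by positivity
  refine ⟨first s, second s, ?_, ?_⟩
  · have h3 := third s
    have h4 := fourth s
    have : 3 ^ (Fintype.card ι) * (3 * 3 ^ (Fintype.card ι)) ≤
        3 ^ (Fintype.card ι) * (2 ^ (Fintype.card ι) * (sums s univ).card ^ 2 *
      (3 + ((triples s).filter (fun t => t ≠ (∅, ∅, ∅))).card)) := by
      calc 3 ^ (Fintype.card ι) * (3 * 3 ^ (Fintype.card ι)) = 3 * 9 ^ (Fintype.card ι) := by
            have : (9 : ℕ) ^ (Fintype.card ι) = 3 ^ (Fintype.card ι) * 3 ^ (Fintype.card ι) := by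
              rw [← mul_pow]; norm_num
            rw [this]
            ring
        _ ≤ 3 * (2 ^ (Fintype.card ι) * (sums s univ).card ^ 2 * weight s) :=
            Nat.mul_le_mul_left _ h3
        _ = 2 ^ (Fintype.card ι) * (sums s univ).card ^ 2 * (3 * weight s) := by ring
        _ ≤ 2 ^ (Fintype.card ι) * (sums s univ).card ^ 2 * (3 ^ (Fintype.card ι) *
              (3 + ((triples s).filter (fun t => t ≠ (∅, ∅, ∅))).card)) :=
            Nat.mul_le_mul_left _ h4
        _ = _ := by ring
    exact Nat.le_of_mul_le_mul_left this hpos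
  · intro hf
    have hw := weight_of_free s hf
    constructor
    · have h1 := le_trans (first s) (Nat.mul_le_mul_left _ hw)
      have e : (9 : ℕ) ^ (Fintype.card ι) = 3 ^ (Fintype.card ι) * 3 ^ (Fintype.card ι) := by
        rw [← mul_pow]; norm_num
      rw [e] at h1
      exact Nat.le_of_mul_le_mul_right h1 hpos
    · have h1 := le_trans (second s) (Nat.mul_le_mul_left _ hw)
      have e : (18 : ℕ) ^ (Fintype.card ι) = 6 ^ (Fintype.card ι) * 3 ^ (Fintype.card ι) := by
        rw [← mul_pow]; norm_num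
      rw [e] at h1
      exact Nat.le_of_mul_le_mul_right h1 hpos

end

end Pool.Agent.Results.MP_5a799b_co.Supersaturation
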