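import Mathlib
import Pool.Agent.Lib.RHO5.E

set_option autoImplicit false

namespace Pool.Agent.Results.MP_5a799b_co.ThreeFamilies

open Finset Pool.Agent.Lib.RHO4 Pool.Agent.Lib.RHO5

section

variable {k : ℕ} {G : Type} [DecidableEq G] [AddCommGroup G]

/-- The weighted number of ordered triples of pairwise disjoint index sets `A, B, C` with equal
sums; the triple `A, B, C` has weight `3 ^ (k - |A| - |B| - |C|)`. -/
def weight (s : Fin k → G) : ℕ :=
  ∑ t ∈ triples s, 3 ^ (k - (t.1.card + t.2.1.card + t.2.2.card))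

/-- The only pairwise disjoint index sets `A, B, C` with equal sums are `∅, ∅, ∅`. -/
def TripleFree (s : Fin k → G) : Prop :=
  ∀ A B C : Finset (Fin k), Disjoint A B → Disjoint A C → Disjoint B C →
    ∑ i ∈ A, s i = ∑ i ∈ B, s i → ∑ i ∈ B, s i = ∑ i ∈ C, s i → A = ∅ ∧ B = ∅ ∧ C = ∅

theorem weight_of_free (s : Fin k → G) (h : TripleFree s) : weight s ≤ 3 ^ k := by
  unfold weight
  have hsub : triples s ⊆ {(∅, ∅, ∅)} := by
    intro t ht
    unfold triples at ht
    rw [Finset.mem_filter] at ht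
    obtain ⟨_, h1, h2, h3, h4, h5⟩ := ht
    obtain ⟨e1, e2, e3⟩ := h t.1 t.2.1 t.2.2 h1 h2 h3 h4 h5
    rw [Finset.mem_singleton]
    exact Prod.ext e1 (Prod.ext e2 e3)
  refine le_trans (Finset.sum_le_sum_of_subset hsub) ?_
  rw [Finset.sum_singleton]
  simp

theorem card_prs_le (s : Fin k → G) : (prs s).card ≤ weight s := by
  have h := card_prs s
  rw [Fintype.card_fin] at h
  exact h

theorem prs_diag (s : Fin k → G) (h : TripleFree s)
    (q : (Fin k → ZMod 3) × (Fin k → ZMod 3)) (hq : q ∈ prs s) : q.1 = q.2 := by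
  classical
  have hd : (univ : Finset (Fin k → ZMod 3)).image (fun w => (w, w)) ⊆ prs s := by
    intro x hx
    rw [mem_image] at hx
    obtain ⟨w, _, rfl⟩ := hx
    exact mem_prs s (w, w) rfl (fun i => Or.inl rfl)
  have hc : ((univ : Finset (Fin k → ZMod 3)).image (fun w => (w, w))).card = 3 ^ k := by
    rw [card_image_of_injective _ (fun a b hab => congrArg Prod.fst hab), Finset.card_univ,
      Fintype.card_fun, ZMod.card, Fintype.card_fin]
  have he := Finset.eq_of_subset_of_card_le hd (by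
    rw [hc]
    exact le_trans (card_prs_le s) (weight_of_free s h))
  rw [← he, mem_image] at hq
  obtain ⟨w, _, rfl⟩ := hq
  rfl

theorem near_words (s : Fin k → G) (h : TripleFree s) (a b c : G) :
    (near (words s a b c)).card ≤ (words s a b c).card := by
  classical
  refine Finset.card_le_card_of_injOn (fun q => q.1) ?_ ?_
  · intro q hq
    rw [mem_coe] at hq
    unfold near at hq
    rw [mem_filter, mem_product] at hq
    exact hq.1.1
  · have key : ∀ q ∈ near (words s a b c), q.1 = q.2 := by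
      intro q hq
      unfold near at hq
      rw [mem_filter, mem_product] at hq
      exact prs_diag s h q (mem_prs s q (cls_eq s _ _ a b c hq.1.1 hq.1.2) hq.2)
    intro q hq r hr hqr
    have e1 := key q hq
    have e2 := key r hr
    have e3 : q.1 = r.1 := hqr
    exact Prod.ext e3 (by rw [← e1, ← e2, e3])

theorem words_free (s : Fin k → G) (h : TripleFree s) (a b c : G) :
    4 ^ k * (words s a b c).card ≤ deg s a * deg s b * deg s c := by
  have h1 := le_trans (words_le s a b c) (Nat.mul_le_mul_left _ (near_words s h a b c))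
  rcases Nat.eq_zero_or_pos (words s a b c).card with h0 | h0
  · rw [h0, mul_zero]
    exact Nat.zero_le _
  · refine Nat.le_of_mul_le_mul_right ?_ h0
    calc 4 ^ k * (words s a b c).card * (words s a b c).card =
        4 ^ k * (words s a b c).card ^ 2 := by ring
      _ ≤ _ := h1

theorem roles_free (s : Fin k → G) (h : TripleFree s) (T : Fin k → ZMod 3) (a b c : G) :
    (words s a b c).card ≤ cnt s T a b c := by
  have h1 := le_trans (words_roles s T a b c) (Nat.mul_le_mul_left _ (near_words s h a b c))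
  rcases Nat.eq_zero_or_pos (words s a b c).card with h0 | h0
  · rw [h0]
    exact Nat.zero_le _
  · refine Nat.le_of_mul_le_mul_right ?_ h0
    calc (words s a b c).card * (words s a b c).card = (words s a b c).card ^ 2 := by ring
      _ ≤ _ := h1

theorem total (s : Fin k → G) :
    36 ^ k ≤ (∑ a ∈ sums s univ, ∑ b ∈ sums s univ,
      deg s a * deg s b * deg s (∑ i, s i - a - b)) * weight s := by
  have h := robust s
  rw [Finset.sum_product] at h
  exact le_trans h (Nat.mul_le_mul_left _ (card_prs_le s))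

theorem total_free (s : Fin k → G) (h : TripleFree s) :
    12 ^ k ≤ ∑ a ∈ sums s univ, ∑ b ∈ sums s univ,
      deg s a * deg s b * deg s (∑ i, s i - a - b) := by
  have h1 := le_trans (total s) (Nat.mul_le_mul_left _ (weight_of_free s h))
  have hpos : 0 < 3 ^ k := by positivity
  refine Nat.le_of_mul_le_mul_right ?_ hpos
  have e : (12 : ℕ) ^ k * 3 ^ k = 36 ^ k := by
    rw [← mul_pow]
    norm_num
  rw [e]
  exact h1

/-- the classes of the ordered partitions, harmonic form -/
theorem harmonic (s : Fin k → G) (h : TripleFree s) :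
    ∑ w : Fin k → ZMod 3, (4 : ℚ) ^ k / (deg s (∑ i ∈ part w 0, s i) *
      deg s (∑ i ∈ part w 1, s i) * deg s (∑ i ∈ part w 2, s i)) ≤ ((sums s univ).card : ℚ) ^ 2 := by
  classical
  have hmap : ∀ w ∈ (univ : Finset (Fin k → ZMod 3)),
      (∑ i ∈ part w 0, s i, ∑ i ∈ part w 1, s i) ∈ sums s univ ×ˢ sums s univ := by
    intro w _
    rw [mem_product]
    exact ⟨part_mem s w 0, part_mem s w 1⟩
  rw [← Finset.sum_fiberwise_of_maps_to hmap]
  have hone : ∀ q ∈ sums s univ ×ˢ sums s univ,
      ∑ w ∈ (univ : Finset (Fin k → ZMod 3)).filter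
        (fun w => (∑ i ∈ part w 0, s i, ∑ i ∈ part w 1, s i) = q),
        (4 : ℚ) ^ k / (deg s (∑ i ∈ part w 0, s i) *
      deg s (∑ i ∈ part w 1, s i) * deg s (∑ i ∈ part w 2, s i)) ≤ 1 := by
    intro q _
    have hf : (univ : Finset (Fin k → ZMod 3)).filter
        (fun w => (∑ i ∈ part w 0, s i, ∑ i ∈ part w 1, s i) = q) =
        words s q.1 q.2 (∑ i, s i - q.1 - q.2) := by
      ext w
      unfold words
      rw [mem_filter, mem_filter]
      constructor
      · rintro ⟨_, h1⟩
        have e1 : ∑ i ∈ part w 0, s i = q.1 := congrArg Prod.fst h1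
        have e2 : ∑ i ∈ part w 1, s i = q.2 := congrArg Prod.snd h1
        refine ⟨mem_univ _, e1, e2, ?_⟩
        have := sum_parts s w
        rw [← this, e1, e2]
        abel
      · rintro ⟨_, h1, h2, _⟩
        exact ⟨mem_univ _, Prod.ext h1 h2⟩
    rw [hf]
    have hconst : ∀ w ∈ words s q.1 q.2 (∑ i, s i - q.1 - q.2),
        (4 : ℚ) ^ k / (deg s (∑ i ∈ part w 0, s i) *
      deg s (∑ i ∈ part w 1, s i) * deg s (∑ i ∈ part w 2, s i)) =
        (4 : ℚ) ^ k / (deg s q.1 * deg s q.2 * deg s (∑ i, s i - q.1 - q.2)) := by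
      intro w hw
      unfold words at hw
      rw [mem_filter] at hw
      rw [hw.2.1, hw.2.2.1, hw.2.2.2]
    rw [Finset.sum_congr rfl hconst, Finset.sum_const, nsmul_eq_mul]
    have h1 := words_free s h q.1 q.2 (∑ i, s i - q.1 - q.2)
    have h2 : ((4 : ℚ) ^ k * ((words s q.1 q.2 (∑ i, s i - q.1 - q.2)).card : ℚ)) ≤
        (deg s q.1 : ℚ) * deg s q.2 * deg s (∑ i, s i - q.1 - q.2) := by
      exact_mod_cast h1
    rw [← mul_div_assoc, mul_comm _ ((4 : ℚ) ^ k)]
    exact div_le_one_of_le₀ h2 (by positivity)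
  refine le_trans (Finset.sum_le_sum hone) ?_
  rw [Finset.sum_const, Finset.card_product, nsmul_eq_mul, mul_one, sq]
  push_cast
  exact le_refl _

end

/-- Ordered partitions of `Fin k` into three parts are the words `w : Fin k → ZMod 3` with the
parts `part w 0`, `part w 1`, `part w 2`. -/
theorem result :
    (∀ (k : ℕ) (J : Finset (Fin k → ZMod 3)) (X Y Z : Finset (Finset (Fin k))),
      IsUpperSet (X : Set (Finset (Fin k))) → IsUpperSet (Y : Set (Finset (Fin k))) →
      IsUpperSet (Z : Set (Finset (Fin k))) →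
      (∀ w ∈ J, part w 0 ∈ X ∧ part w 1 ∈ Y ∧ part w 2 ∈ Z) →
      4 ^ k * J.card ^ 2 ≤ X.card * Y.card * Z.card * (near J).card ∧
      ∀ T : Fin k → ZMod 3, J.card ^ 2 ≤ (changes T X Y Z).card * (near J).card) ∧
    (∀ (k : ℕ) (G : Type) [DecidableEq G] [AddCommGroup G] (s : Fin k → G),
      36 ^ k ≤ (∑ a ∈ sums s univ, ∑ b ∈ sums s univ,
        deg s a * deg s b * deg s (∑ i, s i - a - b)) * weight s ∧
      (TripleFree s →
        (∀ a b c : G, 4 ^ k * (words s a b c).card ≤ deg s a * deg s b * deg s c ∧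
          ∀ T : Fin k → ZMod 3, (words s a b c).card ≤ cnt s T a b c) ∧
        12 ^ k ≤ ∑ a ∈ sums s univ, ∑ b ∈ sums s univ,
          deg s a * deg s b * deg s (∑ i, s i - a - b) ∧
        ∑ w : Fin k → ZMod 3, (4 : ℚ) ^ k / (deg s (∑ i ∈ part w 0, s i) *
          deg s (∑ i ∈ part w 1, s i) * deg s (∑ i ∈ part w 2, s i)) ≤
            ((sums s univ).card : ℚ) ^ 2)) := by
  refine ⟨?_, ?_⟩
  · intro k J X Y Z hX hY hZ h
    exact ⟨code_set J X Y Z hX hY hZ h, code_roles J X Y Z hX hY hZ h⟩
  · intro k G _ _ s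
    exact ⟨total s, fun h => ⟨fun a b c => ⟨words_free s h a b c,
      fun T => roles_free s h T a b c⟩, total_free s h, harmonic s h⟩⟩

end Pool.Agent.Results.MP_5a799b_co.ThreeFamilies
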